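import Pool.Agent.helper90.KS.Spec

/-! # `BE`: collinear centres, embedding -/

set_option autoImplicit false

open scoped BigOperators

namespace Pool.Agent.KS

open Pool.Agent.helper23.TH

noncomputable section

open Classical

theorem BE_fib {V X : Type} {A : V → V → Prop} {p q : V → X} (hPG : PG A p q) (T S : Finset V)
    (z : X) (h : ∀ w ∈ T, p w = z ∧ ∃ m ∈ S, A m w) : T.card ≤ S.card := by
  refine Finset.card_le_card_of_injOn
    (fun w => if h' : ∃ m ∈ S, A m w then h'.choose else w) ?_ ?_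
  · intro w hw
    have h' := (h w hw).2
    simp only [dif_pos h']
    exact h'.choose_spec.1
  · intro w hw w' hw' heq
    have h1 := (h w hw).2
    have h2 := (h w' hw').2
    simp only [dif_pos h1, dif_pos h2] at heq
    have e1 := h1.choose_spec.2
    have e2 := h2.choose_spec.2
    rw [← heq] at e2
    exact hPG.inj1 _ _ _ e1 e2 ((h w hw).1.trans (h w' hw').1.symm)

/-- the elements with the property -/
def BE_fl {V : Type} (T : Finset V) (P : V → Prop) : Finset V := T.filter P

theorem BE_mem {V : Type} {T : Finset V} {P : V → Prop} {x : V} :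
    x ∈ BE_fl T P ↔ x ∈ T ∧ P x := Finset.mem_filter

theorem BE_un {V κ : Type} [Fintype κ] (T : Finset V) (P : κ → V → Prop) (B : ℕ)
    (h : ∀ k, (BE_fl T (P k)).card ≤ B) :
    (BE_fl T fun w => ∃ k, P k w).card ≤ Fintype.card κ * B := by
  have h1 : (BE_fl T fun w => ∃ k, P k w) ⊆ Finset.univ.biUnion fun k => BE_fl T (P k) := by
    intro w hw
    obtain ⟨hw1, k, hk⟩ := BE_mem.1 hw
    exact Finset.mem_biUnion.2 ⟨k, Finset.mem_univ _, BE_mem.2 ⟨hw1, hk⟩⟩
  refine (Finset.card_le_card h1).trans ?_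
  rw [← Finset.card_univ]
  exact Finset.card_biUnion_le_card_mul _ _ _ fun k _ => h k

theorem BE (hGR : GR_stmt) (hNL : NL_stmt) : BE_stmt := by
  intro s t hs
  refine ⟨s * s * C0 s t + s * s * 2 + s * t * 1 + (1 + s * 2 + s * 1 + s * s * 2) * t + 1, ?_⟩
  intro V X _ A p q hPG hcfg
  obtain ⟨m0, u, v, hu, hu2, hv, hvinj, hC⟩ := hcfg
  obtain ⟨n1, -, -, -, -, n6, n7⟩ := hNL V X A p q (Fintype.card V) (C0 s t) hPG
    (fun v => Finset.card_le_univ _)
  have hmid : ∀ (w : V) (i : Fin s), ∃ m, Lg A (C0 s t) w (u i) → A w m ∧ A (u i) m := by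
    intro w i
    by_cases h : Lg A (C0 s t) w (u i)
    · have h1 : 0 < (Finset.univ.filter fun m => A w m ∧ A (u i) m).card := h.2.1
      obtain ⟨m, hm⟩ := Finset.card_pos.1 h1
      exact ⟨m, fun _ => (Finset.mem_filter.1 hm).2⟩
    · exact ⟨w, fun h' => absurd h' h⟩
  choose mid hmid using hmid
  obtain ⟨Y, hY⟩ : ∃ Y : Fin t → Finset V, ∀ j, Y j = Finset.univ.filter fun w =>
    p w = p (v j) ∧ ∀ i, Lg A (C0 s t) w (u i) := ⟨_, fun _ => rfl⟩
  have hYm : ∀ j, ∀ w ∈ Y j, p w = p (v j) ∧ ∀ i, Lg A (C0 s t) w (u i) := by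
    intro j w hw
    rw [hY, Finset.mem_filter] at hw
    exact hw.2
  have hz : ∀ j j', j ≠ j' → p (v j) ≠ p (v j') := fun j j' hne h =>
    hne (hvinj (hPG.inj1 m0 _ _ (hv j) (hv j') h))
  have hCosymm : ∀ x y : V, Co p q x y → Co p q y x := by
    rintro x y (h | h)
    · exact Or.inl h.symm
    · exact Or.inr h.symm
  -- bad sets
  have ba : ∀ j, (BE_fl (Y j) fun w => ∃ k : Fin s × Fin s, k.1 ≠ k.2 ∧
      A (u k.2) (mid w k.1)).card ≤ s * s * C0 s t := by
    intro j
    have h1 := BE_un (Y j) (fun (k : Fin s × Fin s) w => k.1 ≠ k.2 ∧ A (u k.2) (mid w k.1))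
      (C0 s t) (by
        intro k
        by_cases hk : k.1 = k.2
        · have he : BE_fl (Y j) (fun w => k.1 ≠ k.2 ∧ A (u k.2) (mid w k.1)) = ∅ := by
            rw [Finset.eq_empty_iff_forall_notMem]
            intro w hw
            exact (BE_mem.1 hw).2.1 hk
          rw [he, Finset.card_empty]
          exact Nat.zero_le _
        · refine (BE_fib hPG _ (Finset.univ.filter fun m => A (u k.1) m ∧ A (u k.2) m)
            (p (v j)) ?_).trans (le_of_lt (hu2 k.1 k.2 hk).2)
          intro w hw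
          obtain ⟨hw1, hw2⟩ := BE_mem.1 hw
          obtain ⟨hw3, hw4⟩ := hYm j w hw1
          have hm := hmid w k.1 (hw4 k.1)
          exact ⟨hw3, mid w k.1, Finset.mem_filter.2 ⟨Finset.mem_univ _, hm.2, hw2.2⟩,
            hPG.symm _ _ hm.1⟩)
    rw [Fintype.card_prod, Fintype.card_fin] at h1
    exact h1
  have bb : ∀ j, (BE_fl (Y j) fun w => ∃ k : Fin s × Fin s, k.1 ≠ k.2 ∧
      Co p q (mid w k.1) (u k.2)).card ≤ s * s * 2 := by
    intro j
    have h1 := BE_un (Y j) (fun (k : Fin s × Fin s) w => k.1 ≠ k.2 ∧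
      Co p q (mid w k.1) (u k.2)) 2 (by
        intro k
        refine (BE_fib hPG _ (Finset.univ.filter fun m => A (u k.1) m ∧ Co p q m (u k.2))
          (p (v j)) ?_).trans (n1 (u k.1) (u k.2))
        intro w hw
        obtain ⟨hw1, hw2⟩ := BE_mem.1 hw
        obtain ⟨hw3, hw4⟩ := hYm j w hw1
        have hm := hmid w k.1 (hw4 k.1)
        exact ⟨hw3, mid w k.1, Finset.mem_filter.2 ⟨Finset.mem_univ _, hm.2, hw2.2⟩,
          hPG.symm _ _ hm.1⟩)
    rw [Fintype.card_prod, Fintype.card_fin] at h1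
    exact h1
  have bc : ∀ j, (BE_fl (Y j) fun w => ∃ k : Fin s × Fin t,
      p (mid w k.1) = p (v k.2)).card ≤ s * t * 1 := by
    intro j
    have h1 := BE_un (Y j) (fun (k : Fin s × Fin t) w => p (mid w k.1) = p (v k.2)) 1 (by
        intro k
        refine (BE_fib hPG _ (Finset.univ.filter fun m => A (u k.1) m ∧ p m = p (v k.2))
          (p (v j)) ?_).trans ?_
        · intro w hw
          obtain ⟨hw1, hw2⟩ := BE_mem.1 hw
          obtain ⟨hw3, hw4⟩ := hYm j w hw1
          have hm := hmid w k.1 (hw4 k.1)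
          exact ⟨hw3, mid w k.1, Finset.mem_filter.2 ⟨Finset.mem_univ _, hm.2, hw2⟩,
            hPG.symm _ _ hm.1⟩
        · rw [Finset.card_le_one]
          intro x hx y hy
          obtain ⟨-, hx1, hx2⟩ := Finset.mem_filter.1 hx
          obtain ⟨-, hy1, hy2⟩ := Finset.mem_filter.1 hy
          exact hPG.inj1 _ _ _ hx1 hy1 (hx2.trans hy2.symm))
    rw [Fintype.card_prod, Fintype.card_fin, Fintype.card_fin] at h1
    exact h1
  obtain ⟨Z, hZ⟩ : ∃ Z : Fin t → Finset V, ∀ j, Z j = BE_fl (Y j) fun w =>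
    (¬ ∃ k : Fin s × Fin s, k.1 ≠ k.2 ∧ A (u k.2) (mid w k.1)) ∧
    (¬ ∃ k : Fin s × Fin s, k.1 ≠ k.2 ∧ Co p q (mid w k.1) (u k.2)) ∧
    ¬ ∃ k : Fin s × Fin t, p (mid w k.1) = p (v k.2) := ⟨_, fun _ => rfl⟩
  have hZcard : ∀ j, (Y j).card ≤ (Z j).card + s * s * C0 s t + s * s * 2 + s * t * 1 := by
    intro j
    have h1 : Y j ⊆ ((Z j ∪ (BE_fl (Y j) fun w => ∃ k : Fin s × Fin s, k.1 ≠ k.2 ∧
        A (u k.2) (mid w k.1))) ∪ (BE_fl (Y j) fun w => ∃ k : Fin s × Fin s, k.1 ≠ k.2 ∧
        Co p q (mid w k.1) (u k.2))) ∪ (BE_fl (Y j) fun w => ∃ k : Fin s × Fin t,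
        p (mid w k.1) = p (v k.2)) := by
      intro w hw
      simp only [Finset.mem_union, hZ, BE_mem]
      tauto
    refine (Finset.card_le_card h1).trans ?_
    refine (Finset.card_union_le _ _).trans ?_
    refine Nat.add_le_add ?_ (bc j)
    refine (Finset.card_union_le _ _).trans ?_
    refine Nat.add_le_add ?_ (bb j)
    refine (Finset.card_union_le _ _).trans ?_
    exact Nat.add_le_add le_rfl (ba j)
  have hZY : ∀ j, Z j ⊆ Y j := by
    intro j w hw
    rw [hZ] at hw
    exact (BE_mem.1 hw).1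
  obtain ⟨f, hf1, hf2⟩ := hGR (Fin t) V Z (fun w w' => q w = q w' ∨
    (∃ i, Co p q (mid w i) w') ∨ (∃ i, Co p q (mid w' i) w) ∨
    ∃ k : Fin s × Fin s, Co p q (mid w k.1) (mid w' k.2))
    (1 + s * 2 + s * 1 + s * s * 2) (by
      rintro x y (h | h | h | ⟨k, hk⟩)
      · exact Or.inl h.symm
      · exact Or.inr (Or.inr (Or.inl h))
      · exact Or.inr (Or.inl h)
      · exact Or.inr (Or.inr (Or.inr ⟨(k.2, k.1), hCosymm _ _ hk⟩)))
    (by
      intro j j' hjj w' hw'
      have hw'Y := hYm j' w' (hZY j' hw')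
      have c1 : (BE_fl (Z j) fun w => q w = q w').card ≤ 1 := by
        rw [Finset.card_le_one]
        intro x hx y hy
        obtain ⟨hx1, hx2⟩ := BE_mem.1 hx
        obtain ⟨hy1, hy2⟩ := BE_mem.1 hy
        exact hPG.ext _ _ ((hYm j x (hZY j hx1)).1.trans (hYm j y (hZY j hy1)).1.symm)
          (hx2.trans hy2.symm)
      have c2 : (BE_fl (Z j) fun w => ∃ i, Co p q (mid w i) w').card ≤ s * 2 := by
        have h1 := BE_un (Z j) (fun (i : Fin s) w => Co p q (mid w i) w') 2 (by
          intro i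
          refine (BE_fib hPG _ (Finset.univ.filter fun m => A (u i) m ∧ Co p q m w')
            (p (v j)) ?_).trans (n1 (u i) w')
          intro w hw
          obtain ⟨hw1, hw2⟩ := BE_mem.1 hw
          obtain ⟨hw3, hw4⟩ := hYm j w (hZY j hw1)
          have hm := hmid w i (hw4 i)
          exact ⟨hw3, mid w i, Finset.mem_filter.2 ⟨Finset.mem_univ _, hm.2, hw2⟩,
            hPG.symm _ _ hm.1⟩)
        rw [Fintype.card_fin] at h1
        exact h1
      have c3 : (BE_fl (Z j) fun w => ∃ i, Co p q (mid w' i) w).card ≤ s * 1 := by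
        have h1 := BE_un (Z j) (fun (i : Fin s) w => Co p q (mid w' i) w) 1 (by
          intro i
          rw [Finset.card_le_one]
          intro x hx y hy
          obtain ⟨hx1, hx2⟩ := BE_mem.1 hx
          obtain ⟨hy1, hy2⟩ := BE_mem.1 hy
          have hx3 := (hYm j x (hZY j hx1)).1
          have hy3 := (hYm j y (hZY j hy1)).1
          rw [hZ, BE_mem] at hw'
          have hno := hw'.2.2.2
          have q1 : q (mid w' i) = q x := by
            rcases hx2 with h | h
            · exact absurd ⟨(i, j), h.trans hx3⟩ hno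
            · exact h
          have q2 : q (mid w' i) = q y := by
            rcases hy2 with h | h
            · exact absurd ⟨(i, j), h.trans hy3⟩ hno
            · exact h
          exact hPG.ext _ _ (hx3.trans hy3.symm) (q1.symm.trans q2))
        rw [Fintype.card_fin] at h1
        exact h1
      have c4 : (BE_fl (Z j) fun w => ∃ k : Fin s × Fin s,
          Co p q (mid w k.1) (mid w' k.2)).card ≤ s * s * 2 := by
        have h1 := BE_un (Z j) (fun (k : Fin s × Fin s) w =>
          Co p q (mid w k.1) (mid w' k.2)) 2 (by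
          intro k
          refine (BE_fib hPG _ (Finset.univ.filter fun m => A (u k.1) m ∧
            Co p q m (mid w' k.2)) (p (v j)) ?_).trans (n1 (u k.1) (mid w' k.2))
          intro w hw
          obtain ⟨hw1, hw2⟩ := BE_mem.1 hw
          obtain ⟨hw3, hw4⟩ := hYm j w (hZY j hw1)
          have hm := hmid w k.1 (hw4 k.1)
          exact ⟨hw3, mid w k.1, Finset.mem_filter.2 ⟨Finset.mem_univ _, hm.2, hw2⟩,
            hPG.symm _ _ hm.1⟩)
        rw [Fintype.card_prod, Fintype.card_fin] at h1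
        exact h1
      have hsub : (BE_fl (Z j) fun w => q w = q w' ∨ (∃ i, Co p q (mid w i) w') ∨
          (∃ i, Co p q (mid w' i) w) ∨ ∃ k : Fin s × Fin s, Co p q (mid w k.1) (mid w' k.2)) ⊆
          (((BE_fl (Z j) fun w => q w = q w') ∪
          (BE_fl (Z j) fun w => ∃ i, Co p q (mid w i) w')) ∪
          (BE_fl (Z j) fun w => ∃ i, Co p q (mid w' i) w)) ∪
          (BE_fl (Z j) fun w => ∃ k : Fin s × Fin s, Co p q (mid w k.1) (mid w' k.2)) := by
        intro w hw
        simp only [Finset.mem_union, BE_mem] at hw ⊢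
        tauto
      refine (Finset.card_le_card hsub).trans ?_
      refine (Finset.card_union_le _ _).trans ?_
      refine Nat.add_le_add ?_ c4
      refine (Finset.card_union_le _ _).trans ?_
      refine Nat.add_le_add ?_ c3
      refine (Finset.card_union_le _ _).trans ?_
      exact Nat.add_le_add c1 c2)
    (by
      intro j
      have h1 := hC j
      have h2 := hZcard j
      rw [hY j] at h2
      rw [Fintype.card_fin]
      omega)
  have hfY : ∀ j, p (f j) = p (v j) ∧ ∀ i, Lg A (C0 s t) (f j) (u i) := fun j =>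
    hYm j _ (hZY j (hf1 j))
  have hfZ : ∀ j, (¬ ∃ k : Fin s × Fin s, k.1 ≠ k.2 ∧ A (u k.2) (mid (f j) k.1)) ∧
      (¬ ∃ k : Fin s × Fin s, k.1 ≠ k.2 ∧ Co p q (mid (f j) k.1) (u k.2)) ∧
      ¬ ∃ k : Fin s × Fin t, p (mid (f j) k.1) = p (v k.2) := by
    intro j
    have h := hf1 j
    rw [hZ, BE_mem] at h
    exact h.2
  have hm : ∀ i j, A (f j) (mid (f j) i) ∧ A (u i) (mid (f j) i) := fun i j =>
    hmid (f j) i ((hfY j).2 i)
  refine ⟨u, f, fun i j => mid (f j) i, ?_, ?_, ?_, ?_, ?_, ?_, ?_⟩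
  · exact fun i j => ⟨(hm i j).2, hPG.symm _ _ (hm i j).1⟩
  · exact fun i i' hne => n7 m0 _ _ (hu i) (hu i') (hu2 i i' hne).1
  · rintro j j' hne (h | h)
    · rw [(hfY j).1, (hfY j').1] at h
      exact hz j j' hne h
    · exact hf2 j j' hne (Or.inl h)
  · intro i j
    exact (n6 _ _ (n6 _ _ ((hfY j).2 i)).1).2
  · intro i i' j hco
    by_cases hii : i = i'
    · subst hii
      rcases hco with h | h
      · exact hPG.ne1 _ _ (hm i j).2 h
      · exact hPG.ne2 _ _ (hm i j).2 h
    · exact (hfZ j).2.1 ⟨(i', i), Ne.symm hii, hCosymm _ _ hco⟩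
  · intro i j j' hco
    by_cases hjj : j = j'
    · subst hjj
      rcases hco with h | h
      · exact hPG.ne1 _ _ (hm i j).1 h
      · exact hPG.ne2 _ _ (hm i j).1 h
    · exact hf2 j j' hjj (Or.inr (Or.inr (Or.inl ⟨i, hCosymm _ _ hco⟩)))
  · intro i i' j j' hne hco
    by_cases hjj : j = j'
    · subst hjj
      have hii : i ≠ i' := fun h => hne (by rw [h])
      by_cases heq : mid (f j) i = mid (f j) i'
      · apply (hfZ j).1
        refine ⟨(i, i'), hii, ?_⟩
        change A (u i') (mid (f j) i)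
        rw [heq]
        exact (hm i' j).2
      · exact n7 (f j) _ _ (hm i j).1 (hm i' j).1 heq hco
    · exact hf2 j j' hjj (Or.inr (Or.inr (Or.inr ⟨(i, i'), hco⟩)))

end

end Pool.Agent.KS
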